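import Pool.Agent.Helper74.NM.St

/-!
# Project NM (MP_26f0da_lc): module GA, the gadget A
-/

set_option autoImplicit false

namespace Pool.Agent.Helper95.NM

open Pool.Agent.Helper74 Pool.Agent.Helper74.NM

section

variable {W : Type} (rk : W → Bool) (g : W × List W)

/-- A letter `o ..` or `x ..` on the top, popped by `k z`. -/
theorem top_k (σ : List (Lt W)) (hc : clean σ) (z : Zt W) (a : Lt W) (σ' : List (Lt W))
    (h : σ = a :: σ') (hp : P rk a (.k z)) : a = .o z ∧ clean σ' := by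
  subst h
  refine ⟨?_, fun b hb => hc b (List.mem_cons_of_mem _ hb)⟩
  rcases hc a (List.mem_cons_self ..) with ⟨z', rfl⟩ | ⟨g', rfl⟩
  · have : z' = z := hp
    rw [this]
  · exact absurd hp (by simp [P])

theorem gA_three (σ τ : List (Lt W)) (hc : clean σ)
    (h : Tr (P rk) op [.k (.b false), .k (.s g.1), .k (.c (rk g.1))] σ τ) :
    σ = (Zs rk g).map .o ++ τ := by
  rcases h with ⟨h, _⟩ | ⟨a, σ1, h1, h2, h⟩
  · exact absurd h (by simp [op])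
  obtain ⟨rfl, c1⟩ := top_k rk σ hc _ a σ1 h1 h2
  rcases h with ⟨h, _⟩ | ⟨b, σ2, h3, h4, h⟩
  · exact absurd h (by simp [op])
  obtain ⟨rfl, c2⟩ := top_k rk σ1 c1 _ b σ2 h3 h4
  rcases h with ⟨h, _⟩ | ⟨c, σ3, h5, h6, h⟩
  · exact absurd h (by simp [op])
  obtain ⟨rfl, c3⟩ := top_k rk σ2 c2 _ c σ3 h5 h6
  have h7 : σ3 = τ := h
  subst h7
  subst h5
  subst h3
  subst h1
  rfl

theorem gA_main (σ τ : List (Lt W)) (hc : clean σ) (h : Tr (P rk) op (gA rk g) σ τ) :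
    τ = .x g :: σ ∨ σ = (Zs rk g).map .o ++ τ := by
  rcases h with ⟨_, h⟩ | ⟨a, σ', _, h, _⟩
  swap
  · exact absurd h (not_p_x rk a g)
  rcases h with ⟨_, h⟩ | ⟨a, σ', _, h, _⟩
  swap
  · exact absurd h (not_p_f1 rk a g)
  rcases h with ⟨_, h⟩ | ⟨a, σ', h0, _, h⟩
  · rcases h with ⟨_, h⟩ | ⟨a, σ', h0, h, _⟩
    swap
    · obtain ⟨rfl, _⟩ := List.cons.inj h0
      exact absurd h (by simp [P])
    rcases h with ⟨h, _⟩ | ⟨a, σ1, h1, _, h⟩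
    · exact absurd h (by simp [op])
    obtain ⟨rfl, rfl⟩ := List.cons.inj h1
    rcases h with ⟨h, _⟩ | ⟨a, σ2, h2, _, h⟩
    · exact absurd h (by simp [op])
    obtain ⟨rfl, rfl⟩ := List.cons.inj h2
    rcases h with ⟨h, _⟩ | ⟨a, σ3, h3, _, h⟩
    · exact absurd h (by simp [op])
    obtain ⟨rfl, rfl⟩ := List.cons.inj h3
    have h4 : Lt.x g :: σ = τ := h
    exact Or.inl h4.symm
  · obtain ⟨rfl, rfl⟩ := List.cons.inj h0
    rcases h with ⟨_, h⟩ | ⟨a, σ', h1, _, h⟩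
    · rcases h with ⟨h, _⟩ | ⟨a, σ1, h1, _, h⟩
      · exact absurd h (by simp [op])
      obtain ⟨rfl, rfl⟩ := List.cons.inj h1
      rcases h with ⟨h, _⟩ | ⟨a, σ2, h2, h3, _⟩
      · exact absurd h (by simp [op])
      obtain ⟨rfl, rfl⟩ := List.cons.inj h2
      exact absurd h3 (by simp [P])
    · obtain ⟨rfl, rfl⟩ := List.cons.inj h1
      exact Or.inr (gA_three rk g σ τ hc h)

end

theorem hGA : StGA := by
  intro W rk g σ
  refine ⟨?_, ?_, fun hc τ h => gA_main rk g σ τ hc h⟩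
  · exact Or.inl ⟨trivial, Or.inl ⟨trivial, Or.inl ⟨trivial, Or.inl ⟨trivial,
      Or.inr ⟨_, _, rfl, rfl, Or.inr ⟨_, _, rfl, rfl, Or.inr ⟨_, _, rfl, rfl, rfl⟩⟩⟩⟩⟩⟩⟩
  · exact Or.inl ⟨trivial, Or.inl ⟨trivial, Or.inr ⟨_, _, rfl, rfl, Or.inr ⟨_, _, rfl, rfl,
      Or.inr ⟨_, _, rfl, rfl, Or.inr ⟨_, _, rfl, rfl, Or.inr ⟨_, _, rfl, rfl, rfl⟩⟩⟩⟩⟩⟩⟩

end Pool.Agent.Helper95.NM
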